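import Pool.Agent.H500.ME.Stm
import Pool.Agent.H500.ZO.Art
import Pool.Agent.H17.ZO.ARTa
import Pool.Agent.H190.ZO.ARTb
import Pool.Agent.H139.ZO.ABL
import Pool.Agent.H168.ZO.RAD
import Pool.Agent.H738.HC.Chars

set_option autoImplicit false
set_option linter.unusedSectionVars false

/-!
# Project ME (helper500), part D1 (helper396): semisimple representations attached to `P` are diagonal on
`U`, with the `ℓ`-adic characters as entries
-/

namespace Pool.Agent.H396.ME.MAT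

open NumberField IsDedekindDomain Filter Topology Polynomial
open Pool.Agent.W401.Cheb (GK IsFrob IsInert dens)
open Pool.Agent.H500.HC (InRay QBar ZBar jz)
open Pool.Agent.H500.SV (Above Fld)
open Pool.Agent.H500.ZO (PotHecke SemiS)
open Pool.Agent.H894.TH.TFin (exists_below above_nat)
open Pool.Agent.H139.ZO (frob_cp frob_ex)
open Pool.Agent.H139.ZO.ABL (nhd trace_of_cp)

/-- characters with equal sums agree up to a permutation (characteristic zero) -/
theorem chars_sum {G k : Type} [Group G] [Field k] [CharZero k] {n : ℕ} (f g : Fin n → (G →* k))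
    (hs : ∀ x, ∑ i, f i x = ∑ i, g i x) : ∃ π : Equiv.Perm (Fin n), ∀ i, f i = g (π i) := by
  classical
  apply Pool.Agent.H738.HC.Chars.perm_of_card
  have hfib : ∀ (f : Fin n → (G →* k)) (s : Finset (G →* k)), (∀ i, f i ∈ s) →
      ∑ a ∈ s, ((Finset.univ.filter fun i => f i = a).card : k) • (a : G → k) =
        ∑ i, (f i : G → k) := by
    intro f s hfs
    rw [← Finset.sum_fiberwise_of_maps_to (s := Finset.univ) (t := s) (g := f)
      (fun i _ => hfs i) (fun i => (f i : G → k))]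
    refine Finset.sum_congr rfl fun a _ => ?_
    have h4 : ∀ i ∈ Finset.univ.filter (fun i => f i = a), (f i : G → k) = (a : G → k) := by
      intro i hi
      rw [(Finset.mem_filter.1 hi).2]
    rw [Finset.sum_congr rfl h4, Finset.sum_const, ← Nat.cast_smul_eq_nsmul k]
  let s : Finset (G →* k) := Finset.univ.image f ∪ Finset.univ.image g
  have hfs : ∀ i, f i ∈ s := fun i =>
    Finset.mem_union_left _ (Finset.mem_image_of_mem f (Finset.mem_univ i))
  have hgs : ∀ i, g i ∈ s := fun i =>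
    Finset.mem_union_right _ (Finset.mem_image_of_mem g (Finset.mem_univ i))
  have hli := linearIndependent_iff'.1 (linearIndependent_monoidHom G k) s
    (fun a => ((Finset.univ.filter fun i => f i = a).card : k) -
      ((Finset.univ.filter fun i => g i = a).card : k)) (by
      simp only [sub_smul]
      rw [Finset.sum_sub_distrib, hfib f s hfs, hfib g s hgs, sub_eq_zero]
      funext x
      rw [Finset.sum_apply, Finset.sum_apply]
      exact hs x)
  intro a
  by_cases ha : a ∈ s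
  · have h5 := hli a ha
    rw [sub_eq_zero] at h5
    exact Nat.cast_injective h5
  · rw [Finset.filter_false_of_mem, Finset.filter_false_of_mem]
    · intro i _ hi
      exact ha (hi ▸ hgs i)
    · intro i _ hi
      exact ha (hi ▸ hfs i)

section
variable {G C : Type} [Group G] [Field C] {n : ℕ}

/-- the diagonal entries of a representation by diagonal matrices -/
def ent (D : G →* GL (Fin n) C) (hD : ∀ s, (D s : Matrix (Fin n) (Fin n) C).IsDiag) (i : Fin n) :
    G →* C where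
  toFun s := (D s : Matrix (Fin n) (Fin n) C) i i
  map_one' := by
    rw [map_one, Matrix.GeneralLinearGroup.coe_one, Matrix.one_apply_eq]
  map_mul' s t := by
    rw [map_mul, Matrix.GeneralLinearGroup.coe_mul, Matrix.mul_apply, Finset.sum_eq_single i]
    · intro k _ hk
      rw [hD s (Ne.symm hk), zero_mul]
    · intro h
      exact absurd (Finset.mem_univ i) h

/-- permutation of the diagonal entries -/
theorem perm_diag (ρ : G → Matrix (Fin n) (Fin n) C) (Q : GL (Fin n) C) (δ Ψ : Fin n → G → C)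
    (π : Equiv.Perm (Fin n)) (hπ : ∀ i, δ i = Ψ (π i))
    (h : ∀ s, ρ s * (Q : Matrix (Fin n) (Fin n) C) =
      (Q : Matrix (Fin n) (Fin n) C) * Matrix.diagonal fun i => δ i s) :
    ∃ R : GL (Fin n) C, ∀ s, ρ s * (R : Matrix (Fin n) (Fin n) C) =
      (R : Matrix (Fin n) (Fin n) C) * Matrix.diagonal fun i => Ψ i s := by
  classical
  have hdet : ((Q : Matrix (Fin n) (Fin n) C).submatrix id π.symm).det ≠ 0 := by
    rw [Matrix.det_permute']
    refine mul_ne_zero ?_ ?_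
    · rcases Int.units_eq_one_or (Equiv.Perm.sign π.symm) with h1 | h1 <;> rw [h1] <;> simp
    · exact Q.det_ne_zero
  refine ⟨Matrix.GeneralLinearGroup.mkOfDetNeZero _ hdet, fun s => ?_⟩
  have e1 : ((Matrix.GeneralLinearGroup.mkOfDetNeZero _ hdet : GL (Fin n) C) :
      Matrix (Fin n) (Fin n) C) = (Q : Matrix (Fin n) (Fin n) C).submatrix id π.symm := rfl
  rw [e1]
  ext a b
  have h1 := congrFun (congrFun (h s) a) (π.symm b)
  rw [Matrix.mul_diagonal] at h1
  rw [Matrix.mul_diagonal]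
  have h2 : δ (π.symm b) s = Ψ b s := by rw [hπ, Equiv.apply_symm_apply]
  rw [h2] at h1
  exact h1

end

section
variable {K E : Type} [Field K] [NumberField K] [Field E] [NumberField E]

/-- the traces are equal up to `2 ε` -/
theorem tr_eq {j : E →+* QBar} {N n : ℕ} {P : HeightOneSpectrum (𝓞 K) → (𝓞 E)[X]}
    {U : Subgroup (GK K)} {L : Type} [Field L] [NumberField L] [Algebra K L] {ι : GK L →* GK K}
    {e : ℕ} {t : Fin n → (L →+* QBar) → ℕ} {ψ : Fin n → (Ideal (𝓞 L) →*₀ ZBar)} (hN : 2 ≤ N)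
    (H : PotHecke j N n P U L ι e t ψ) (ℓ : ℕ) [hℓ : Fact ℓ.Prime] (C : Type) [NormedField C]
    [IsAlgClosed C] (κ : QBar →+* C) (Ψ : Fin n → (GK L →* Cˣ))
    (hΨc : ∀ i, Continuous (fun s => (Ψ i s : C)))
    (hΨ : ∀ i, ∀ w : HeightOneSpectrum (𝓞 L), (N : 𝓞 L) ∉ w.asIdeal → (ℓ : 𝓞 L) ∉ w.asIdeal →
      ∀ s, IsFrob w s → (Ψ i s : C) = κ (ψ i w.asIdeal : ZBar))
    (ρ : GK K →* GL (Fin n) C) (hcont : Continuous (fun g => (ρ g : Matrix (Fin n) (Fin n) C)))
    (hP : ∀ v : HeightOneSpectrum (𝓞 K), (N : 𝓞 K) ∉ v.asIdeal → (ℓ : 𝓞 K) ∉ v.asIdeal →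
      (∀ τ, IsInert v τ → ρ τ = 1) ∧ ∀ σ, IsFrob v σ →
      (ρ σ : Matrix (Fin n) (Fin n) C).charpoly = (P v).map ((κ.comp j).comp (algebraMap (𝓞 E) E)))
    (g : GK L) : (ρ (ι g) : Matrix (Fin n) (Fin n) C).trace = ∑ i, (Ψ i g : C) := by
  classical
  set F : GK K → C := fun x => (ρ x : Matrix (Fin n) (Fin n) C).trace with hF
  have hFc : Continuous F := hcont.matrix_trace
  set Θ : GK L → C := fun s => ∑ i, (Ψ i s : C) with hΘ
  have hΘc : Continuous Θ := continuous_finsetSum _ fun i _ => hΨc i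
  set r : ZBar →+* C := κ.comp (algebraMap ZBar QBar) with hr
  have hr' : r.comp (jz j) = (κ.comp j).comp (algebraMap (𝓞 E) E) := RingHom.ext fun x => rfl
  have key : ∀ (w : HeightOneSpectrum (𝓞 L)) (s : GK L), ((N * ℓ : ℕ) : 𝓞 L) ∉ w.asIdeal →
      IsFrob w s → F (ι s) = Θ s := by
    intro w s hw hs
    obtain ⟨v, hv⟩ := exists_below (K := K) w
    have h1 : ((N * ℓ : ℕ) : 𝓞 K) ∉ v.asIdeal := fun h => hw ((above_nat hv _).1 h)
    have h2 : (N : 𝓞 K) ∉ v.asIdeal := fun h => h1 (by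
      rw [Nat.cast_mul]; exact v.asIdeal.mul_mem_right _ h)
    have h3 : ((ℓ : ℕ) : 𝓞 K) ∉ v.asIdeal := fun h => h1 (by
      rw [Nat.cast_mul]; exact v.asIdeal.mul_mem_left _ h)
    have h2' : (N : 𝓞 L) ∉ w.asIdeal := fun h => hw (by
      rw [Nat.cast_mul]; exact w.asIdeal.mul_mem_right _ h)
    have h3' : ((ℓ : ℕ) : 𝓞 L) ∉ w.asIdeal := fun h => hw (by
      rw [Nat.cast_mul]; exact w.asIdeal.mul_mem_left _ h)
    have h4 : (ρ (ι s) : Matrix (Fin n) (Fin n) C).charpoly =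
        ∏ i, (X - Polynomial.C (r (ψ i w.asIdeal))) := by
      refine frob_cp H r ρ h2 (hP v h2 h3).1 ?_ hv hs
      intro σ hσ
      rw [(hP v h2 h3).2 σ hσ, hr']
    rw [hF, hΘ]
    show (ρ (ι s) : Matrix (Fin n) (Fin n) C).trace = ∑ i, (Ψ i s : C)
    rw [trace_of_cp _ _ h4]
    exact Finset.sum_congr rfl fun i _ => (hΨ i w h2' h3' s hs).symm
  show F (ι g) = Θ g
  rw [← sub_eq_zero, ← norm_le_zero_iff]
  refine le_of_forall_pos_lt_add fun ε hε => ?_
  obtain ⟨V1, hV1n, hV1o, hV1⟩ := nhd F hFc (ι g) (half_pos hε)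
  obtain ⟨V2, hV2n, hV2o, hV2⟩ := nhd Θ hΘc g (half_pos hε)
  have hV1n' : (V1.comap ι).Normal := hV1n.comap ι
  set W : Subgroup (GK L) := V1.comap ι ⊓ V2 with hW
  have hWn : W.Normal := inferInstance
  have hWo : IsOpen (W : Set (GK L)) := (H.fld.comap_open _ hV1o).inter hV2o
  have hNq : 0 < N * ℓ := Nat.mul_pos (by omega) hℓ.out.pos
  obtain ⟨w, s, -, hwN, hs, hsc⟩ := frob_ex W hWn hWo g Set.finite_empty hNq
  have h7 : ‖F (ι s) - F (ι g)‖ < ε / 2 := by
    have h8 := hV1 (ι (g⁻¹ * s)) hsc.1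
    rwa [← map_mul, mul_inv_cancel_left] at h8
  have h8 : ‖Θ s - Θ g‖ < ε / 2 := by
    have h9 := hV2 (g⁻¹ * s) hsc.2
    rwa [mul_inv_cancel_left] at h9
  have h9 : F (ι g) - Θ g = (Θ s - Θ g) - (F (ι s) - F (ι g)) := by
    rw [key w s hwN hs]
    ring
  rw [h9, zero_add]
  calc ‖(Θ s - Θ g) - (F (ι s) - F (ι g))‖ ≤ ‖Θ s - Θ g‖ + ‖F (ι s) - F (ι g)‖ := norm_sub_le _ _
    _ < ε := by linarith

end

/-- `S_ABL` (as in `Pool/Agent/H500/ZO/All.lean`) -/
theorem abl : Pool.Agent.H500.ZO.S_ABL :=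
  Pool.Agent.H139.ZO.ABL.main
    (Pool.Agent.H500.ZO.art_of Pool.Agent.H17.ZO.ARTa.main Pool.Agent.H190.ZO.ARTb.main)
    Pool.Agent.H168.ZO.RAD.main

theorem main : Pool.Agent.H500.ME.S_SDG → Pool.Agent.H500.ME.S_MAT := by
  intro hSDG K E _ _ _ _ j N n P U L _ _ _ ι e t ψ hN H ℓ hℓ κ Ψ hΨc hΨ ρ hcont hss hP
  classical
  have hfin : Finite (GK K ⧸ U) := Subgroup.quotient_finite_of_isOpen _ H.isOpen
  have hFI : U.FiniteIndex := Subgroup.finiteIndex_of_finite_quotient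
  have hcomm := abl K E j N n P U L ι e t ψ hN H ℓ (PadicAlgCl ℓ)
    (κ.comp j) ρ hcont hss hP
  obtain ⟨Q, hQ⟩ := hSDG (GK K) U n (PadicAlgCl ℓ) ρ H.normal hFI hss hcomm
  have hU : ∀ s, ι s ∈ U := fun s => H.fld.range ▸ ⟨s, rfl⟩
  let D : GK L →* GL (Fin n) (PadicAlgCl ℓ) :=
    (((MulAut.conj Q⁻¹).toMonoidHom).comp ρ).comp ι
  have hDs : ∀ s, D s = Q⁻¹ * ρ (ι s) * Q := by
    intro s
    show Q⁻¹ * ρ (ι s) * Q⁻¹⁻¹ = _
    rw [inv_inv]
  have hD : ∀ s, (D s : Matrix (Fin n) (Fin n) (PadicAlgCl ℓ)).IsDiag := by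
    intro s
    rw [hDs]
    exact hQ _ (hU s)
  have htr := tr_eq hN H ℓ (PadicAlgCl ℓ) κ Ψ hΨc hΨ ρ hcont hP
  obtain ⟨π, hπ⟩ := chars_sum (fun i => ent D hD i) (fun i => (Units.coeHom _).comp (Ψ i)) (by
    intro s
    show (D s : Matrix (Fin n) (Fin n) (PadicAlgCl ℓ)).trace = ∑ i, (Ψ i s : PadicAlgCl ℓ)
    rw [← htr s, hDs]
    exact Matrix.trace_units_conj' Q _)
  obtain ⟨R, hR⟩ := perm_diag (fun s : GK L => (ρ (ι s) : Matrix (Fin n) (Fin n) (PadicAlgCl ℓ))) Q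
    (fun i s => ent D hD i s) (fun i s => (Ψ i s : PadicAlgCl ℓ)) π
    (fun i => funext fun s => DFunLike.congr_fun (hπ i) s) (by
      intro s
      have h1 : (Matrix.diagonal fun i => ent D hD i s) =
          (D s : Matrix (Fin n) (Fin n) (PadicAlgCl ℓ)) := (hD s).diagonal_diag
      rw [h1, hDs, ← Matrix.GeneralLinearGroup.coe_mul, ← Matrix.GeneralLinearGroup.coe_mul]
      congr 1
      group)
  refine ⟨R, fun s => ?_⟩
  have h2 := hR s
  have h3 : ((R⁻¹ * ρ (ι s) * R : GL (Fin n) (PadicAlgCl ℓ)) :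
      Matrix (Fin n) (Fin n) (PadicAlgCl ℓ)) =
      ((R⁻¹ : GL (Fin n) (PadicAlgCl ℓ)) : Matrix (Fin n) (Fin n) (PadicAlgCl ℓ)) *
        ((ρ (ι s) : Matrix (Fin n) (Fin n) (PadicAlgCl ℓ)) *
          (R : Matrix (Fin n) (Fin n) (PadicAlgCl ℓ))) := by
    rw [Matrix.GeneralLinearGroup.coe_mul, Matrix.GeneralLinearGroup.coe_mul, Matrix.mul_assoc]
  rw [h3, h2, ← Matrix.mul_assoc, ← Matrix.GeneralLinearGroup.coe_mul, inv_mul_cancel,
    Matrix.GeneralLinearGroup.coe_one, Matrix.one_mul]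

end Pool.Agent.H396.ME.MAT
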