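import Pool.Agent.H500.ME.Stm2
import Pool.Agent.H894.TH.TFin
import Pool.Agent.H500.KumDens

set_option autoImplicit false
set_option linter.unusedSectionVars false

/-!
# Project ME (helper500), part E3 (helper396): the traces are algebraic
-/

namespace Pool.Agent.H396.ME.TRI

open NumberField IsDedekindDomain Filter Topology Polynomial
open Pool.Agent.W401.Cheb (GK IsFrob IsInert dens)
open Pool.Agent.H500.HC (InRay QBar ZBar jz)
open Pool.Agent.H500.SV (Above Fld)
open Pool.Agent.H500.ZO (PotHecke SemiS)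
open Pool.Agent.H500.ED
open Pool.Agent.H500.ME (IsAC at1)
open Pool.Agent.Q92.AR (Dv Ray prin)
open Pool.Agent.H894.TH.TFin (above_nat)

/-- roots of elements of the image of an algebraically closed field -/
theorem root_mem {k C : Type} [Field k] [IsAlgClosed k] [Field C] (κ : k →+* C) {c : k} {d : ℕ}
    (hd : 0 < d) {y : C} (h : y ^ d = κ c) : y ∈ κ.range := by
  refine (IsAlgClosed.splits (X ^ d - Polynomial.C c)).mem_range_of_isRoot
    (X_pow_sub_C_ne_zero hd c) ?_
  rw [Polynomial.map_sub, Polynomial.map_pow, map_X, Polynomial.map_C, IsRoot.def, eval_sub,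
    eval_pow, eval_X, eval_C, h, sub_self]

/-- the trace of a matrix with a diagonal power -/
theorem trace_mem {k C : Type} [Field k] [IsAlgClosed k] [Field C] [IsAlgClosed C] (κ : k →+* C)
    {n d : ℕ} (hd : 0 < d) (A : Matrix (Fin n) (Fin n) C) (c : Fin n → k)
    (hA : A ^ d = Matrix.diagonal fun i => κ (c i)) : A.trace ∈ κ.range := by
  rw [A.trace_eq_sum_roots_charpoly]
  refine multiset_sum_mem _ fun y hy => ?_
  have h1 : y ∈ spectrum C A :=
    Matrix.mem_spectrum_iff_isRoot_charpoly.2 (isRoot_of_mem_roots hy)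
  have h2 := spectrum.pow_mem_pow A d h1
  rw [hA, spectrum_diagonal] at h2
  obtain ⟨i, hi⟩ := h2
  exact root_mem κ hd hi.symm

theorem main : Pool.Agent.H500.ED.S_FXC → Pool.Agent.H500.ME.S_TRI := by
  intro hFXC K _ _ U L _ _ _ ι e hn hU hFX ℓ hℓ κ n ρ Φ hAC hρ
  classical
  choose M t φ hM using hAC
  obtain ⟨-, -, -, -, -, -, hlast⟩ := hFXC K U L ι e hU hFX
  have hfin : Finite (GK K ⧸ U) := Subgroup.quotient_finite_of_isOpen _ hU
  have hFI : U.FiniteIndex := Subgroup.finiteIndex_of_finite_quotient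
  have hd : 0 < U.index := Nat.pos_of_ne_zero hFI.index_ne_zero
  obtain ⟨N, hN⟩ : ∃ N : ℕ, N = ∏ i, M i := ⟨_, rfl⟩
  have hN0 : N ≠ 0 := by
    rw [hN]
    exact Finset.prod_ne_zero_iff.2 fun i _ => (hM i).pos.ne'
  have hfin2 : {v : HeightOneSpectrum (𝓞 K) | (N : 𝓞 K) ∈ v.asIdeal}.Finite :=
    Pool.Agent.H500.Kum.fin_mem (E := K) (x := (N : 𝓞 K)) (by exact_mod_cast hN0)
  filter_upwards [hfin2.compl_mem_cofinite] with v hv s hs
  have hv' : (N : 𝓞 K) ∉ v.asIdeal := hv
  obtain ⟨u, s', τ, a, hab, hs', hτ, ha, heq⟩ := hlast v s hs 1 U.index hd (by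
    rw [inv_one, one_mul, mul_one]
    exact U.pow_index_mem s)
  rw [inv_one, one_mul, mul_one] at heq
  have hMu : ∀ i, (M i : 𝓞 L) ∉ u.asIdeal := by
    intro i hi
    apply hv'
    rw [above_nat hab]
    obtain ⟨b, hb⟩ : M i ∣ N := hN ▸ Finset.dvd_prod_of_mem M (Finset.mem_univ i)
    rw [hb, Nat.cast_mul]
    exact u.asIdeal.mul_mem_right _ hi
  have hpow : (ρ s : Matrix (Fin n) (Fin n) (PadicAlgCl ℓ)) ^ U.index =
      Matrix.diagonal fun i => κ (at1 (φ i) u ^ a) := by
    have h1 : (ρ s : Matrix (Fin n) (Fin n) (PadicAlgCl ℓ)) ^ U.index =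
        (ρ (s ^ U.index) : Matrix (Fin n) (Fin n) (PadicAlgCl ℓ)) := by
      rw [map_pow]
      rfl
    rw [h1, heq, hρ]
    congr 1
    funext i
    rw [map_mul, map_pow, (hM i).inert u (hMu i) τ hτ, mul_one, Units.val_pow_eq_pow_val,
      (hM i).frob u (hMu i) s' hs', map_pow]
  obtain ⟨z, hz⟩ := trace_mem κ hd _ _ hpow
  exact ⟨z, hz⟩

end Pool.Agent.H396.ME.TRI
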